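import Pool.Agent.V11124.OddCycle
import Pool.Agent.V11124.CoronaDefs

open SimpleGraph Pool.Agent.V11124.CoronaDefs

namespace Pool.Agent.Results.MP_7e5e3f_co.CoronaKerBound

theorem critical_inter {V : Type} [Fintype V] (G : SimpleGraph V) (A : Set V) (hA : IsCritical G A)
    (S : Finset V) (hS : G.IsMaximumIndepSet S) : IsCritical G (A ∩ S) := by
  classical
  have hSi : G.IsIndepSet (S : Set V) := hS.isIndepSet
  refine ⟨hA.1.mono Set.inter_subset_left, fun Y hY => (hA.2 Y hY).trans ?_⟩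
  -- exchange
  have h1 : G.IsIndepSet (((S : Set V) \ nbhd G A) ∪ A) := by
    intro a ha b hb hab hadj
    rcases ha with ha | ha <;> rcases hb with hb | hb
    · exact hSi ha.1 hb.1 hab hadj
    · exact ha.2 ⟨b, hb, hadj.symm⟩
    · exact hb.2 ⟨a, ha, hadj⟩
    · exact hA.1 ha hb hab hadj
  have h2 : (((S : Set V) \ nbhd G A) ∪ A).ncard ≤ S.card := by
    have hfin := Set.toFinite (((S : Set V) \ nbhd G A) ∪ A)
    rw [Set.ncard_eq_toFinset_card _ hfin]
    apply hS.maximum
    rw [Set.Finite.coe_toFinset]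
    exact h1
  have h3 : (((S : Set V) \ nbhd G A) ∪ A) = ((S : Set V) \ nbhd G A) ∪ (A \ S) := by
    ext x
    simp only [Set.mem_union, Set.mem_sdiff, Finset.mem_coe]
    constructor
    · rintro (h | h)
      · exact Or.inl h
      · by_cases hx : x ∈ S
        · refine Or.inl ⟨hx, fun hn => ?_⟩
          obtain ⟨y, hy, hadj⟩ := hn
          exact hA.1 hy h hadj.ne hadj
        · exact Or.inr ⟨h, hx⟩
    · rintro (h | h)
      · exact Or.inl h
      · exact Or.inr h.1
  have h4 : (((S : Set V) \ nbhd G A) ∪ (A \ S)).ncard = ((S : Set V) \ nbhd G A).ncard + (A \ S).ncard := by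
    apply Set.ncard_union_eq _ (Set.toFinite _) (Set.toFinite _)
    rw [Set.disjoint_left]
    intro x hx hx'
    exact hx'.2 hx.1
  have h5 : ((S : Set V) \ nbhd G A).ncard + ((S : Set V) ∩ nbhd G A).ncard = S.card := by
    rw [← Set.ncard_coe_finset, add_comm]
    exact Set.ncard_inter_add_ncard_sdiff_eq_ncard _ _ (Set.toFinite _)
  have h6 : (nbhd G (A ∩ S)) ⊆ nbhd G A \ ((S : Set V) ∩ nbhd G A) := by
    rintro x ⟨y, hy, hadj⟩
    refine ⟨⟨y, hy.1, hadj⟩, fun hx => ?_⟩
    exact hSi hy.2 hx.1 hadj.ne hadj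
  have h7 : (nbhd G (A ∩ S)).ncard + ((S : Set V) ∩ nbhd G A).ncard ≤ (nbhd G A).ncard := by
    have h8 := Set.ncard_le_ncard h6 (Set.toFinite _)
    have h9 : (nbhd G A \ ((S : Set V) ∩ nbhd G A)).ncard + ((S : Set V) ∩ nbhd G A).ncard = (nbhd G A).ncard :=
      Set.ncard_sdiff_add_ncard_of_subset Set.inter_subset_right (Set.toFinite _)
    omega
  have h10 : (A ∩ S).ncard + (A \ S).ncard = A.ncard :=
    Set.ncard_inter_add_ncard_sdiff_eq_ncard _ _ (Set.toFinite _)
  rw [h3, h4] at h2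
  unfold dd
  omega

theorem exists_critical {V : Type} [Fintype V] (G : SimpleGraph V) : ∃ A, IsCritical G A := by
  classical
  have hfin : {Y : Set V | G.IsIndepSet Y}.Finite := Set.toFinite _
  have hne : {Y : Set V | G.IsIndepSet Y}.Nonempty := ⟨∅, by simp [SimpleGraph.IsIndepSet]⟩
  obtain ⟨A, hA, hmax⟩ := Set.exists_max_image _ (dd G) hfin hne
  exact ⟨A, hA, hmax⟩

theorem ker_subset_core {V : Type} [Fintype V] (G : SimpleGraph V) : ker G ⊆ core G := by
  intro v hv S hS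
  obtain ⟨A, hA⟩ := exists_critical G
  exact (hv _ (critical_inter G A hA S hS)).2

theorem corona_core_le {V : Type} [Fintype V] (G : SimpleGraph V) (T : Set V)
    (hT : (G.induce Tᶜ).Colorable 2) :
    (corona G).ncard + (core G).ncard ≤ 2 * G.indepNum + T.ncard := by
  classical
  obtain ⟨S0, hS0⟩ := G.maximumIndepSet_exists
  have hcc : core G ⊆ corona G := fun v hv => ⟨S0, hS0, hv S0 hS0⟩
  obtain ⟨c⟩ := hT
  -- part with colour i
  have hkey : ∀ i : Fin 2, (core G).ncard + {v : V | v ∈ corona G \ core G ∧ ∃ h : v ∈ Tᶜ, c ⟨v, h⟩ = i}.ncard ≤ G.indepNum := by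
    intro i
    set U := {v : V | v ∈ corona G \ core G ∧ ∃ h : v ∈ Tᶜ, c ⟨v, h⟩ = i} with hU
    have hd : Disjoint (core G) U := by
      rw [Set.disjoint_left]
      intro x hx hx'
      exact hx'.1.2 hx
    rw [← Set.ncard_union_eq hd (Set.toFinite _) (Set.toFinite _)]
    have hcore : ∀ a ∈ core G, ∀ b ∈ corona G, ¬ G.Adj a b := by
      intro a ha b hb hadj
      obtain ⟨S, hS, hbS⟩ := hb
      exact hS.isIndepSet (ha S hS) hbS hadj.ne hadj
    have hind : G.IsIndepSet (core G ∪ U) := by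
      intro a ha b hb hab hadj
      rcases ha with ha | ha
      · rcases hb with hb | hb
        · exact hcore a ha b (hcc hb) hadj
        · exact hcore a ha b hb.1.1 hadj
      · rcases hb with hb | hb
        · exact hcore b hb a ha.1.1 hadj.symm
        · obtain ⟨h1, h2⟩ := ha.2
          obtain ⟨h3, h4⟩ := hb.2
          have : (G.induce Tᶜ).Adj ⟨a, h1⟩ ⟨b, h3⟩ := hadj
          exact c.valid this (h2.trans h4.symm)
    have hfin := Set.toFinite (core G ∪ U)
    rw [Set.ncard_eq_toFinset_card _ hfin]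
    apply SimpleGraph.IsIndepSet.card_le_indepNum
    rw [Set.Finite.coe_toFinset]
    exact hind
  have h0 := hkey 0
  have h1 := hkey 1
  have hcov : corona G \ core G ⊆ T ∪ ({v : V | v ∈ corona G \ core G ∧ ∃ h : v ∈ Tᶜ, c ⟨v, h⟩ = 0} ∪
      {v : V | v ∈ corona G \ core G ∧ ∃ h : v ∈ Tᶜ, c ⟨v, h⟩ = 1}) := by
    intro v hv
    by_cases hvT : v ∈ T
    · exact Or.inl hvT
    · right
      have hvT' : v ∈ Tᶜ := hvT
      rcases (show ∀ j : Fin 2, j = 0 ∨ j = 1 by decide) (c ⟨v, hvT'⟩) with h | h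
      · exact Or.inl ⟨hv, hvT', h⟩
      · exact Or.inr ⟨hv, hvT', h⟩
  have h2 := Set.ncard_le_ncard hcov (Set.toFinite _)
  have h3 := Set.ncard_union_le T ({v : V | v ∈ corona G \ core G ∧ ∃ h : v ∈ Tᶜ, c ⟨v, h⟩ = 0} ∪
      {v : V | v ∈ corona G \ core G ∧ ∃ h : v ∈ Tᶜ, c ⟨v, h⟩ = 1})
  have h4 := Set.ncard_union_le {v : V | v ∈ corona G \ core G ∧ ∃ h : v ∈ Tᶜ, c ⟨v, h⟩ = 0}
      {v : V | v ∈ corona G \ core G ∧ ∃ h : v ∈ Tᶜ, c ⟨v, h⟩ = 1}
  have h5 : (corona G \ core G).ncard + (core G).ncard = (corona G).ncard :=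
    Set.ncard_sdiff_add_ncard_of_subset hcc (Set.toFinite _)
  omega

theorem exists_transversal {V : Type} [Fintype V] (G : SimpleGraph V) :
    ∃ T : Set V, (G.induce Tᶜ).Colorable 2 ∧ T.ncard ≤ (oddCycles G).ncard := by
  classical
  have hch : ∀ C ∈ oddCycles G, ∃ v : V, ∀ (u : V) (w : G.Walk u u), C = {e | e ∈ w.edges} → v ∈ w.support := by
    rintro C ⟨v, w, hw, ho, hC⟩
    cases w with
    | nil => simp at ho
    | @cons _ x _ h p =>
      refine ⟨v, fun u' w' hC' => ?_⟩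
      have he : s(v, x) ∈ C := by
        rw [hC]; simp
      rw [hC'] at he
      exact Walk.fst_mem_support_of_mem_edges _ he
  rcases isEmpty_or_nonempty V with hemp | hne
  · refine ⟨∅, ⟨⟨fun x => (hemp.false x.1).elim, fun {x} => (hemp.false x.1).elim⟩⟩, by simp⟩
  choose! f hf using hch
  refine ⟨f '' oddCycles G, ?_, Set.ncard_image_le (Set.toFinite _)⟩
  apply Pool.Agent.V11124.OddCycle.colorable_two_of_no_odd_cycle
  intro v c hc hodd
  let φ : G.induce (f '' oddCycles G)ᶜ →g G := (SimpleGraph.Embedding.induce _).toHom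
  have hφ : Function.Injective φ := fun a b h => Subtype.ext h
  have hmem : {e | e ∈ (c.map φ).edges} ∈ oddCycles G :=
    ⟨φ v, c.map φ, hc.map hφ, by rw [Walk.length_map]; exact hodd, rfl⟩
  have h1 := hf _ hmem _ (c.map φ) rfl
  rw [Walk.support_map, List.mem_map] at h1
  obtain ⟨x, hx, hx'⟩ := h1
  have h2 : φ x ∈ f '' oddCycles G := by
    rw [hx']
    exact ⟨_, hmem, rfl⟩
  exact x.2 h2

/-- For every finite graph, `|corona(G)| + |ker(G)| ≤ 2 α(G) + k`, where `k` is the number of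
odd cycles. -/
theorem result : ∀ (V : Type) [Fintype V] (G : SimpleGraph V),
    (corona G).ncard + (ker G).ncard ≤ 2 * G.indepNum + (oddCycles G).ncard := by
  intro V _ G
  obtain ⟨T, hT, hTc⟩ := exists_transversal G
  have h1 := corona_core_le G T hT
  have h2 := Set.ncard_le_ncard (ker_subset_core G) (Set.toFinite _)
  omega

end Pool.Agent.Results.MP_7e5e3f_co.CoronaKerBound
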