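import Pool.Agent.V11124.CoronaDefs

open SimpleGraph Pool.Agent.V11124.CoronaDefs

namespace Pool.Agent.Results.MP_7e5e3f_co.VariantsFail

abbrev K4 : SimpleGraph (Fin 4) := ⊤

theorem indepNum_le : K4.indepNum ≤ 1 := by
  obtain ⟨s, hs⟩ := K4.exists_isNIndepSet_indepNum
  rw [← hs.card_eq, Finset.card_le_one]
  intro a ha b hb
  by_contra hab
  exact hs.isIndepSet ha hb hab hab

theorem corona_eq : corona K4 = Set.univ := by
  ext v
  simp only [Set.mem_univ, iff_true]
  refine ⟨{v}, ⟨by simp [SimpleGraph.IsIndepSet], fun t ht => ?_⟩, by simp⟩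
  have := ht.card_le_indepNum
  simpa using this.trans indepNum_le

theorem ncard_corona : (corona K4).ncard = 4 := by
  rw [corona_eq, Set.ncard_univ]; simp

/-- the perfect matching `01, 23` -/
def PM : K4.Subgraph where
  verts := Set.univ
  Adj a b := a ≠ b ∧ a.1 / 2 = b.1 / 2
  adj_sub := fun h => h.1
  edge_vert := fun _ => Set.mem_univ _
  symm := ⟨fun _ _ h => ⟨h.1.symm, h.2.symm⟩⟩

theorem PM_matching : PM.IsMatching := by
  intro v _
  have : ∀ v : Fin 4, ∃ w : Fin 4, (v ≠ w ∧ v.1 / 2 = w.1 / 2) ∧ ∀ y : Fin 4, (v ≠ y ∧ v.1 / 2 = y.1 / 2) → y = w := by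
    decide
  obtain ⟨w, hw, hy⟩ := this v
  exact ⟨w, hw, fun y h => hy y h⟩

theorem PM_card : 2 ≤ PM.edgeSet.ncard := by
  have h1 : ({s(0, 1), s(2, 3)} : Set (Sym2 (Fin 4))) ⊆ PM.edgeSet := by
    intro e he
    rcases he with rfl | rfl
    · exact ⟨by decide, by decide⟩
    · exact ⟨by decide, by decide⟩
  have h2 := Set.ncard_le_ncard h1 (Set.toFinite _)
  rw [Set.ncard_pair (by decide)] at h2
  exact h2

theorem DD_eq : DD K4 = ∅ := by
  ext v
  simp only [Set.mem_empty_iff_false, iff_false]
  rintro ⟨M, hM, hmax, hv⟩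
  have h1 := PM_card.trans (hmax PM PM_matching)
  rw [← Nat.lt_iff_add_one_le, Set.one_lt_ncard (Set.toFinite _)] at h1
  obtain ⟨e, he, e', he', hne⟩ := h1
  induction e using Sym2.ind with
  | _ a b =>
  induction e' using Sym2.ind with
  | _ c d =>
  rw [Subgraph.mem_edgeSet] at he he'
  have ha := M.edge_vert he
  have hb := M.edge_vert he.symm
  have hc := M.edge_vert he'
  have hd := M.edge_vert he'.symm
  have hab : a ≠ b := he.ne
  have hcd : c ≠ d := he'.ne
  have hac : a ≠ c := by
    rintro rfl
    exact hne (by rw [(hM ha).unique he he'])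
  have had : a ≠ d := by
    rintro rfl
    exact hne (by rw [(hM ha).unique he he'.symm, Sym2.eq_swap])
  have hbc : b ≠ c := by
    rintro rfl
    exact hne (by rw [(hM hb).unique he.symm he', Sym2.eq_swap])
  have hbd : b ≠ d := by
    rintro rfl
    exact hne (by rw [(hM hb).unique he.symm he'.symm])
  have hva : v ≠ a := fun h => hv (h ▸ ha)
  have hvb : v ≠ b := fun h => hv (h ▸ hb)
  have hvc : v ≠ c := fun h => hv (h ▸ hc)
  have hvd : v ≠ d := fun h => hv (h ▸ hd)
  have hcard : ({v, a, b, c, d} : Finset (Fin 4)).card = 5 := by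
    rw [Finset.card_insert_of_notMem, Finset.card_insert_of_notMem, Finset.card_insert_of_notMem,
      Finset.card_pair hcd]
    · simp [hbc, hbd]
    · simp [hab, hac, had]
    · simp [hva, hvb, hvc, hvd]
  have := Finset.card_le_univ ({v, a, b, c, d} : Finset (Fin 4))
  rw [hcard] at this
  simp at this

theorem no_odd : (oddCycles (K4.induce (DD K4))).ncard = 0 := by
  have : oddCycles (K4.induce (DD K4)) = ∅ := by
    ext C
    simp only [Set.mem_empty_iff_false, iff_false]
    rintro ⟨v, -⟩
    exact Set.eq_empty_iff_forall_notMem.1 DD_eq v.1 v.2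
  rw [this, Set.ncard_empty]

theorem three_le {v : Fin 4} (w : K4.Walk v v) (hw : w.IsCycle) : 3 ≤ ({x | x ∈ w.support} : Set (Fin 4)).ncard := by
  have h1 : w.support.tail.toFinset.card = w.length := by
    rw [List.toFinset_card_of_nodup hw.support_nodup, List.length_tail, Walk.length_support]
    simp
  have h2 : (w.support.tail.toFinset : Set (Fin 4)) ⊆ {x | x ∈ w.support} := by
    intro x hx
    simp only [Finset.mem_coe, List.mem_toFinset] at hx
    exact List.mem_of_mem_tail hx
  have h3 := Set.ncard_le_ncard h2 (Set.toFinite _)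
  rw [Set.ncard_coe_finset, h1] at h3
  exact hw.three_le_length.trans h3

theorem disj_le : disjointOddCycles K4 ≤ 1 := by
  apply csSup_le
  · exact ⟨0, ∅, by simp⟩
  · rintro m ⟨F, rfl, hF, hdis⟩
    rw [Finset.card_le_one]
    intro C hC D hD
    by_contra hne
    have h1 := hdis C hC D hD hne
    obtain ⟨v, w, hw, -, hCe⟩ := hF C hC
    obtain ⟨v', w', hw', -, hDe⟩ := hF D hD
    have h2 := three_le w hw
    have h3 := three_le w' hw'
    rw [← hCe] at h2
    rw [← hDe] at h3
    have h4 := Set.ncard_union_eq h1 (Set.toFinite _) (Set.toFinite _)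
    have h5 := Set.ncard_le_ncard (Set.subset_univ (C ∪ D)) (Set.toFinite _)
    rw [Set.ncard_univ, Nat.card_eq_fintype_card, Fintype.card_fin] at h5
    omega

/-- The inequality fails for `K_4` both with `k` the number of odd cycles of `G[D(G)]` and with
`k` the largest number of pairwise vertex-disjoint odd cycles. -/
theorem result : ∃ G : SimpleGraph (Fin 4),
    2 * G.indepNum + (oddCycles (G.induce (DD G))).ncard < (corona G).ncard + (ker G).ncard ∧
    2 * G.indepNum + disjointOddCycles G < (corona G).ncard + (ker G).ncard := by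
  refine ⟨K4, ?_, ?_⟩
  · have h1 := indepNum_le
    have h2 := ncard_corona
    have h3 := no_odd
    omega
  · have h1 := indepNum_le
    have h2 := ncard_corona
    have h3 := disj_le
    omega

end Pool.Agent.Results.MP_7e5e3f_co.VariantsFail
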